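import Mathlib

namespace Pool.Agent.Results.MP_90db2d_al.KnitTwo

/-- there is a left path of length `n` in the commuting graph of `S` -/
def LeftPath (S : Type) [Semigroup S] (n : ℕ) : Prop :=
  ∃ x : Fin (n + 1) → S, Function.Injective x ∧ (∀ i, ¬ ∀ y, x i * y = y * x i) ∧
    (∀ i : Fin n, x i.castSucc * x i.succ = x i.succ * x i.castSucc) ∧
    x 0 ≠ x (Fin.last n) ∧ ∀ i, x 0 * x i = x (Fin.last n) * x i

def T : ℕ := 173045326282609034927719624034283542062514944811368652526828938343649057116586419894904050390064790292313750778833907832707622579602822290581285003303361116574416836646940346647348888512749533090850846808156099961316920047623246195165919843531366533878913006226986399817043607684416479445648615733211087009330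

def op (x y : Fin 16) : Fin 16 := ⟨T / 16 ^ (16 * x.val + y.val) % 16, Nat.mod_lt _ (by norm_num)⟩

def M : Type := Fin 16

instance : Semigroup M where
  mul := op
  mul_assoc := show ∀ a b c : Fin 16, op (op a b) c = op a (op b c) by decide +kernel

theorem result : ∃ (S : Type) (_ : Semigroup S), Finite S ∧
    (∀ x : S, ∃! y : S, x * y * x = x ∧ y * x * y = y) ∧ (∃ x y : S, x * y ≠ y * x) ∧
    IsLeast {n | LeftPath S n} 2 := by
  refine ⟨M, inferInstance, inferInstanceAs (Finite (Fin 16)), ?_, ?_, ?_, ?_⟩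
  · have : ∀ x : Fin 16, ∃ y : Fin 16, (op (op x y) x = x ∧ op (op y x) y = y) ∧
        ∀ z : Fin 16, (op (op x z) x = x ∧ op (op z x) z = z) → z = y := by decide +kernel
    exact this
  · exact ⟨(0 : Fin 16), (1 : Fin 16), show op 0 1 ≠ op 1 0 by decide +kernel⟩
  · have : ∃ x : Fin 3 → Fin 16, Function.Injective x ∧ (∀ i, ¬ ∀ y, op (x i) y = op y (x i)) ∧
        (∀ i : Fin 2, op (x i.castSucc) (x i.succ) = op (x i.succ) (x i.castSucc)) ∧
        x 0 ≠ x (Fin.last 2) ∧ ∀ i, op (x 0) (x i) = op (x (Fin.last 2)) (x i) :=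
      ⟨![0, 2, 7], by decide +kernel⟩
    exact this
  · rintro n ⟨x, -, h1, h2, h3, h4⟩
    have key : ∀ a b : Fin 16, (¬ ∀ y, op a y = op y a) → (¬ ∀ y, op b y = op y b) →
        op a b = op b a → op a a = op b a → op a b = op b b → a = b := by decide +kernel
    rcases n with _ | _ | n
    · exact absurd rfl h3
    · exact absurd (key _ _ (h1 0) (h1 1) (h2 0) (h4 0) (h4 1)) h3
    · omega

end Pool.Agent.Results.MP_90db2d_al.KnitTwo
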